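import Pool.Agent.Work.MP_a6ae3a_lc.Main

/-!
# `RCA₀ + P(Δ⁰₂)` is `Π¹₁`-conservative over `RCA₀ + BΣ⁰₂`

`Tm`, `Fm`: terms and formulas of second order arithmetic. `Proves T φ`: there is a formal proof
of `φ` (natural deduction for both sorts, with equality) from the axioms `T`. `RCA0`: the axioms of
discretely ordered semirings, `Σ⁰₁` induction, `Δ⁰₁` comprehension. `BSigma2`: collection for `Σ⁰₂`
formulas. `PDelta2`: the `Δ⁰₂` pigeonhole principle. `IsPi11`: `Π¹₁` formulas.
-/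

namespace Pool.Agent.Results.MP_a6ae3a_lc.Conservation

open Pool.Agent.PD2

/-- Every `Π¹₁` formula provable in `RCA₀ + P(Δ⁰₂)` is provable in `RCA₀ + BΣ⁰₂`. -/
theorem result : ∀ φ : Fm, IsPi11 φ → Proves (RCA0 ∪ {PDelta2}) φ → Proves (RCA0 ∪ BSigma2) φ :=
  conservation_proves

end Pool.Agent.Results.MP_a6ae3a_lc.Conservation
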